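import Mathlib

set_option autoImplicit false

open MeasureTheory Measure
open scoped RealInnerProductSpace ENNReal

namespace Pool.Agent.TH584.AS

abbrev E2 := EuclideanSpace ℝ (Fin 2)
abbrev E3 := EuclideanSpace ℝ (Fin 3)

instance haar2 : IsAddHaarMeasure (μH[2] : Measure E2) := by
  have h : (Module.finrank ℝ E2 : ℝ) = 2 := by simp
  have := isAddHaarMeasure_hausdorffMeasure (E := E2)
  rw [h] at this
  exact this

/-- cross product in coordinates -/
def cr (u v : E3) : E3 :=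
  !₂[u 1 * v 2 - u 2 * v 1, u 2 * v 0 - u 0 * v 2, u 0 * v 1 - u 1 * v 0]

theorem norm_cr_sq (u v : E3) : ‖cr u v‖ ^ 2 = ‖u‖ ^ 2 * ‖v‖ ^ 2 - ⟪u, v⟫ ^ 2 := by
  simp only [EuclideanSpace.norm_sq_eq, PiLp.inner_apply, Fin.sum_univ_three, cr, Real.norm_eq_abs,
    sq_abs, RCLike.inner_apply, conj_trivial]
  simp
  ring

/-- linear map with prescribed columns -/
noncomputable def lin2 (u v : E3) : E2 →ₗ[ℝ] E3 where
  toFun p := p 0 • u + p 1 • v
  map_add' p q := by simp [add_smul]; abel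
  map_smul' c p := by simp [mul_smul, smul_add]

theorem lin2_apply (u v : E3) (p : E2) : lin2 u v p = p 0 • u + p 1 • v := rfl

theorem det_sq (L : E2 →ₗ[ℝ] E2) (a b : E2) (ha : L (EuclideanSpace.single 0 1) = a)
    (hb : L (EuclideanSpace.single 1 1) = b) :
    LinearMap.det L ^ 2 = ‖a‖ ^ 2 * ‖b‖ ^ 2 - ⟪a, b⟫ ^ 2 := by
  have hdet : LinearMap.det L = a 0 * b 1 - b 0 * a 1 := by
    rw [← LinearMap.det_toMatrix (EuclideanSpace.basisFun (Fin 2) ℝ).toBasis, Matrix.det_fin_two]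
    simp [LinearMap.toMatrix_apply, ha, hb]
  rw [hdet]
  simp only [EuclideanSpace.norm_sq_eq, PiLp.inner_apply, Fin.sum_univ_two, Real.norm_eq_abs,
    sq_abs, RCLike.inner_apply, conj_trivial]
  ring

theorem hausdorff_lin2 (u v : E3) (h : LinearIndependent ℝ ![u, v]) (S : Set E2) :
    (μH[2] : Measure E3) (lin2 u v '' S) = ENNReal.ofReal ‖cr u v‖ * (μH[2] : Measure E2) S := by
  set P : Submodule ℝ E3 := Submodule.span ℝ (Set.range ![u, v]) with hP
  have hfin : Module.finrank ℝ P = 2 := by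
    rw [hP, finrank_span_eq_card h]; simp
  have huP : u ∈ P := Submodule.subset_span ⟨0, rfl⟩
  have hvP : v ∈ P := Submodule.subset_span ⟨1, rfl⟩
  let ψ : P ≃ₗᵢ[ℝ] E2 := ((stdOrthonormalBasis ℝ P).reindex (finCongr hfin)).repr
  have hmem : ∀ p : E2, lin2 u v p ∈ P := fun p => by
    rw [lin2_apply]
    exact P.add_mem (P.smul_mem _ huP) (P.smul_mem _ hvP)
  let M : E2 →ₗ[ℝ] P := (lin2 u v).codRestrict P hmem
  let L : E2 →ₗ[ℝ] E2 := ψ.toLinearEquiv.toLinearMap ∘ₗ M
  let J : E2 → E3 := fun p => (P.subtypeₗᵢ (ψ.symm p))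
  have hJ : Isometry J := P.subtypeₗᵢ.isometry.comp ψ.symm.isometry
  have hJL : ∀ p, J (L p) = lin2 u v p := by
    intro p
    show ((ψ.symm (ψ (M p)) : P) : E3) = _
    rw [ψ.symm_apply_apply]
    rfl
  have himg : lin2 u v '' S = J '' (L '' S) := by
    rw [Set.image_image]
    exact Set.image_congr fun p _ => (hJL p).symm
  rw [himg, hJ.hausdorffMeasure_image (Or.inl (by norm_num)), addHaar_image_linearMap]
  congr 2
  have hLa : ‖L (EuclideanSpace.single 0 1)‖ = ‖u‖ := by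
    have := hJL (EuclideanSpace.single 0 1)
    rw [← hJ.norm_map_of_map_zero (by simp [J]) , this]
    simp [lin2_apply]
  have hLb : ‖L (EuclideanSpace.single 1 1)‖ = ‖v‖ := by
    have := hJL (EuclideanSpace.single 1 1)
    rw [← hJ.norm_map_of_map_zero (by simp [J]) , this]
    simp [lin2_apply]
  have hin : ⟪L (EuclideanSpace.single 0 1), L (EuclideanSpace.single 1 1)⟫ = ⟪u, v⟫ := by
    have h1 : M (EuclideanSpace.single 0 1) = ⟨u, huP⟩ := Subtype.ext (by
      show lin2 u v _ = u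
      simp [lin2_apply])
    have h2 : M (EuclideanSpace.single 1 1) = ⟨v, hvP⟩ := Subtype.ext (by
      show lin2 u v _ = v
      simp [lin2_apply])
    show ⟪ψ (M _), ψ (M _)⟫ = _
    rw [ψ.inner_map_map, h1, h2]
    rfl
  have hsq := det_sq L _ _ rfl rfl
  rw [hLa, hLb, hin, ← norm_cr_sq] at hsq
  rw [← abs_norm (cr u v)]
  exact (sq_eq_sq_iff_abs_eq_abs _ _).mp hsq

end Pool.Agent.TH584.AS
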