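import Pool.Agent.TH584.AS.Space

set_option autoImplicit false

open MeasureTheory Measure
open scoped RealInnerProductSpace ENNReal Pointwise

namespace Pool.Agent.TH584.AS

def Oct (s : ℝ) : Set E3 := {x | |x 0| + |x 1| + |x 2| ≤ s}
def TOct : Set E3 := {x | |x 0| + |x 1| + |x 2| ≤ 13 ∧ |x 0| ≤ 8 ∧ |x 1| ≤ 8 ∧ |x 2| ≤ 8}

theorem isClosed_Oct (s : ℝ) : IsClosed (Oct s) :=
  isClosed_le (by fun_prop) continuous_const

theorem isClosed_TOct : IsClosed TOct := by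
  have h : TOct = {x : E3 | |x 0| + |x 1| + |x 2| ≤ 13} ∩ ({x : E3 | |x 0| ≤ 8} ∩
      ({x : E3 | |x 1| ≤ 8} ∩ {x : E3 | |x 2| ≤ 8})) := by
    ext p; exact Iff.rfl
  rw [h]
  refine IsClosed.inter (isClosed_le (by fun_prop) continuous_const) ?_
  refine IsClosed.inter (isClosed_le (by fun_prop) continuous_const) ?_
  exact IsClosed.inter (isClosed_le (by fun_prop) continuous_const)
    (isClosed_le (by fun_prop) continuous_const)

theorem isCompact_Oct (s : ℝ) : IsCompact (Oct s) := by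
  apply Metric.isCompact_of_isClosed_isBounded (isClosed_Oct s)
  rw [isBounded_iff_forall_norm_le]
  refine ⟨s, fun p hp => ?_⟩
  have hp' : |p 0| + |p 1| + |p 2| ≤ s := hp
  have h0 := abs_nonneg (p 0)
  have h1 := abs_nonneg (p 1)
  have h2 := abs_nonneg (p 2)
  rw [EuclideanSpace.norm_eq]
  apply Real.sqrt_le_iff.mpr
  refine ⟨by linarith, ?_⟩
  simp only [Fin.sum_univ_three, Real.norm_eq_abs]
  calc |p 0| ^ 2 + |p 1| ^ 2 + |p 2| ^ 2 ≤ (|p 0| + |p 1| + |p 2|) ^ 2 := by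
        nlinarith [mul_nonneg h0 h1, mul_nonneg h1 h2, mul_nonneg h0 h2]
    _ ≤ s ^ 2 := by
        apply pow_le_pow_left₀ (by positivity) hp'

theorem isCompact_TOct : IsCompact TOct :=
  (isCompact_Oct 13).of_isClosed_subset isClosed_TOct fun _ hx => hx.1

theorem convexOn_abs_coord (i : Fin 3) : ConvexOn ℝ Set.univ (fun x : E3 => |x i|) := by
  refine ⟨convex_univ, fun x _ y _ a b ha hb _ => ?_⟩
  simp only [PiLp.add_apply, PiLp.smul_apply, smul_eq_mul]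
  calc |a * x i + b * y i| ≤ |a * x i| + |b * y i| := abs_add_le _ _
    _ = a * |x i| + b * |y i| := by rw [abs_mul, abs_mul, abs_of_nonneg ha, abs_of_nonneg hb]

theorem convex_Oct (s : ℝ) : Convex ℝ (Oct s) := by
  have h := (((convexOn_abs_coord 0).add (convexOn_abs_coord 1)).add (convexOn_abs_coord 2)).convex_le s
  convert h using 1
  ext x
  simp [Oct]

theorem convex_TOct : Convex ℝ TOct := by
  have h0 := (convexOn_abs_coord 0).convex_le 8
  have h1 := (convexOn_abs_coord 1).convex_le 8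
  have h2 := (convexOn_abs_coord 2).convex_le 8
  have h := (convex_Oct 13).inter (h0.inter (h1.inter h2))
  convert h using 1
  ext x
  simp [Oct, TOct]

theorem isOpen_octI (s : ℝ) : IsOpen {x : E3 | |x 0| + |x 1| + |x 2| < s} :=
  isOpen_lt (by fun_prop) continuous_const

/-- hexagonal face with sign pattern -/
noncomputable def F (s : ℝ) (σ : Bool × Bool × Bool) (S : Set E2) : Set E3 :=
  fm (!₂[sg σ.1 * s, 0, 0]) (!₂[- sg σ.1, sg σ.2.1, 0]) (!₂[- sg σ.1, 0, sg σ.2.2]) '' S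

noncomputable def Q0 (b : Bool) : Set E3 := fm (!₂[sg b * 8, 0, 0]) (e 1) (e 2) '' Sq
noncomputable def Q1 (b : Bool) : Set E3 := fm (!₂[0, sg b * 8, 0]) (e 2) (e 0) '' Sq
noncomputable def Q2 (b : Bool) : Set E3 := fm (!₂[0, 0, sg b * 8]) (e 0) (e 1) '' Sq

theorem sg_mul_abs (b : Bool) (x : ℝ) (h : sg b * x = |x|) : x = sg b * |x| := by
  rw [← h, ← mul_assoc, sg_mul_self, one_mul]

theorem mem_face (s : ℝ) (x : E3) (hx : |x 0| + |x 1| + |x 2| = s) :
    ∃ σ : Bool × Bool × Bool, x = fm (!₂[sg σ.1 * s, 0, 0]) (!₂[- sg σ.1, sg σ.2.1, 0])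
      (!₂[- sg σ.1, 0, sg σ.2.2]) (!₂[|x 1|, |x 2|]) := by
  obtain ⟨a, ha⟩ := exists_sg (x 0)
  obtain ⟨b, hb⟩ := exists_sg (x 1)
  obtain ⟨c, hc⟩ := exists_sg (x 2)
  refine ⟨(a, b, c), ?_⟩
  rw [fm_tri]
  have h0 := sg_mul_abs a _ ha
  have h1 := sg_mul_abs b _ hb
  have h2 := sg_mul_abs c _ hc
  ext i
  fin_cases i
  · simp
    rw [show s - |x 1| - |x 2| = |x 0| by linarith]
    exact h0
  · simpa using h1
  · simpa using h2

theorem frontier_TOct : frontier TOct ⊆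
    (⋃ σ : Bool × Bool × Bool, F 13 σ Hx) ∪ (⋃ b : Bool, (Q0 b ∪ (Q1 b ∪ Q2 b))) := by
  intro x hx
  have hxT : x ∈ TOct := isClosed_TOct.frontier_subset hx
  have hxI : x ∉ interior TOct := hx.2
  obtain ⟨hn, h0, h1, h2⟩ := hxT
  have hsub : {x : E3 | |x 0| + |x 1| + |x 2| < 13} ∩ ({x : E3 | |x 0| < 8} ∩
      ({x : E3 | |x 1| < 8} ∩ {x : E3 | |x 2| < 8})) ⊆ interior TOct := by
    apply interior_maximal
    · rintro y ⟨a, b, c, d⟩
      exact ⟨le_of_lt a, le_of_lt b, le_of_lt c, le_of_lt d⟩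
    · refine IsOpen.inter (isOpen_lt (by fun_prop) continuous_const) ?_
      refine IsOpen.inter (isOpen_lt (by fun_prop) continuous_const) ?_
      exact IsOpen.inter (isOpen_lt (by fun_prop) continuous_const)
        (isOpen_lt (by fun_prop) continuous_const)
  have hcase : |x 0| + |x 1| + |x 2| = 13 ∨ |x 0| = 8 ∨ |x 1| = 8 ∨ |x 2| = 8 := by
    by_contra hcon
    push Not at hcon
    obtain ⟨a, b, c, d⟩ := hcon
    exact hxI (hsub ⟨lt_of_le_of_ne hn a, lt_of_le_of_ne h0 b, lt_of_le_of_ne h1 c,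
      lt_of_le_of_ne h2 d⟩)
  rcases hcase with h | h | h | h
  · left
    obtain ⟨σ, hσ⟩ := mem_face 13 x h
    refine Set.mem_iUnion.mpr ⟨σ, ?_⟩
    refine ⟨_, ?_, hσ.symm⟩
    refine ⟨by simp, by simp, by simpa using h1, by simpa using h2, ?_, ?_⟩
    · simp; linarith
    · simp; linarith [abs_nonneg (x 0)]
  · right
    obtain ⟨a, ha⟩ := exists_sg (x 0)
    refine Set.mem_iUnion.mpr ⟨a, Or.inl ⟨!₂[x 1, x 2], ?_, ?_⟩⟩
    · show |_| + |_| ≤ (5 : ℝ)
      simp; linarith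
    · have h0' := sg_mul_abs a _ ha
      rw [h] at h0'
      ext i; fin_cases i <;> simp [fm, e, h0']
  · right
    obtain ⟨a, ha⟩ := exists_sg (x 1)
    refine Set.mem_iUnion.mpr ⟨a, Or.inr (Or.inl ⟨!₂[x 2, x 0], ?_, ?_⟩)⟩
    · show |_| + |_| ≤ (5 : ℝ)
      simp; linarith
    · have h0' := sg_mul_abs a _ ha
      rw [h] at h0'
      ext i; fin_cases i <;> simp [fm, e, h0']
  · right
    obtain ⟨a, ha⟩ := exists_sg (x 2)
    refine Set.mem_iUnion.mpr ⟨a, Or.inr (Or.inr ⟨!₂[x 0, x 1], ?_, ?_⟩)⟩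
    · show |_| + |_| ≤ (5 : ℝ)
      simp; linarith
    · have h0' := sg_mul_abs a _ ha
      rw [h] at h0'
      ext i; fin_cases i <;> simp [fm, e, h0']

theorem face_sub_frontier (σ : Bool × Bool × Bool) : F 12 σ (To 12) ⊆ frontier (Oct 12) := by
  rintro _ ⟨p, ⟨hp0, hp1, hp2⟩, rfl⟩
  rw [fm_tri]
  set x : E3 := !₂[sg σ.1 * (12 - p 0 - p 1), sg σ.2.1 * p 0, sg σ.2.2 * p 1] with hx
  have abs_sg : ∀ b, |sg b| = 1 := by intro b; cases b <;> simp [sg]
  have hn : |x 0| + |x 1| + |x 2| = 12 := by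
    simp [hx, abs_mul, abs_sg, abs_of_pos hp0, abs_of_pos hp1,
      abs_of_pos (by linarith : 0 < 12 - p 0 - p 1)]
    ring
  rw [frontier, (isClosed_Oct 12).closure_eq]
  refine ⟨le_of_eq hn, fun hint => ?_⟩
  have hcont : Filter.Tendsto (fun t : ℝ => (1 + t) • x) (nhdsWithin 0 (Set.Ioi 0)) (nhds x) := by
    have : Filter.Tendsto (fun t : ℝ => (1 + t) • x) (nhds 0) (nhds ((1 + (0 : ℝ)) • x)) := by
      apply Continuous.tendsto; fun_prop
    rw [add_zero, one_smul] at this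
    exact this.mono_left nhdsWithin_le_nhds
  have hev := hcont.eventually (mem_interior_iff_mem_nhds.mp hint)
  obtain ⟨t, ht, htpos⟩ := (hev.and self_mem_nhdsWithin).exists
  have ht' : |((1 + t) • x) 0| + |((1 + t) • x) 1| + |((1 + t) • x) 2| ≤ 12 := ht
  have htp : 0 < t := htpos
  simp only [PiLp.smul_apply, smul_eq_mul, abs_mul] at ht'
  rw [abs_of_pos (by linarith : 0 < 1 + t), ← mul_add, ← mul_add, hn] at ht'
  linarith

theorem F_To_eq (σ : Bool × Bool × Bool) : F 12 σ (To 12) =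
    {x : E3 | 0 < sg σ.1 * x 0} ∩ ({x : E3 | 0 < sg σ.2.1 * x 1} ∩ ({x : E3 | 0 < sg σ.2.2 * x 2}
      ∩ {x : E3 | sg σ.1 * x 0 + sg σ.2.1 * x 1 + sg σ.2.2 * x 2 = 12})) := by
  have q0 := sg_mul_self σ.1
  have q1 := sg_mul_self σ.2.1
  have q2 := sg_mul_self σ.2.2
  ext x
  constructor
  · rintro ⟨p, ⟨hp0, hp1, hp2⟩, rfl⟩
    rw [fm_tri]
    refine ⟨?_, ?_, ?_, ?_⟩
    · show 0 < sg σ.1 * (sg σ.1 * (12 - p 0 - p 1))
      rw [← mul_assoc, q0]; linarith
    · show 0 < sg σ.2.1 * (sg σ.2.1 * p 0)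
      rw [← mul_assoc, q1]; linarith
    · show 0 < sg σ.2.2 * (sg σ.2.2 * p 1)
      rw [← mul_assoc, q2]; linarith
    · show sg σ.1 * (sg σ.1 * (12 - p 0 - p 1)) + sg σ.2.1 * (sg σ.2.1 * p 0)
        + sg σ.2.2 * (sg σ.2.2 * p 1) = 12
      rw [← mul_assoc, ← mul_assoc, ← mul_assoc, q0, q1, q2]; ring
  · rintro ⟨h0, h1, h2, h3⟩
    have h0' : 0 < sg σ.1 * x 0 := h0
    have h1' : 0 < sg σ.2.1 * x 1 := h1
    have h2' : 0 < sg σ.2.2 * x 2 := h2
    have h3' : sg σ.1 * x 0 + sg σ.2.1 * x 1 + sg σ.2.2 * x 2 = 12 := h3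
    refine ⟨!₂[sg σ.2.1 * x 1, sg σ.2.2 * x 2], ⟨h1', h2', ?_⟩, ?_⟩
    · show sg σ.2.1 * x 1 + sg σ.2.2 * x 2 < 12
      linarith
    · rw [fm_tri]
      ext i
      fin_cases i
      · simp
        rw [show (12 : ℝ) - sg σ.2.1 * x 1 - sg σ.2.2 * x 2 = sg σ.1 * x 0 by linarith,
          ← mul_assoc, q0, one_mul]
      · simp [← mul_assoc, q1]
      · simp [← mul_assoc, q2]

theorem measurable_F (σ : Bool × Bool × Bool) : MeasurableSet (F 12 σ (To 12)) := by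
  rw [F_To_eq]
  refine MeasurableSet.inter (isOpen_lt continuous_const (by fun_prop)).measurableSet ?_
  refine MeasurableSet.inter (isOpen_lt continuous_const (by fun_prop)).measurableSet ?_
  refine MeasurableSet.inter (isOpen_lt continuous_const (by fun_prop)).measurableSet ?_
  exact (isClosed_eq (by fun_prop) continuous_const).measurableSet

theorem disjoint_F (σ τ : Bool × Bool × Bool) (h : σ ≠ τ) :
    Disjoint (F 12 σ (To 12)) (F 12 τ (To 12)) := by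
  rw [F_To_eq, F_To_eq, Set.disjoint_left]
  rintro x ⟨h0, h1, h2, _⟩ ⟨k0, k1, k2, _⟩
  apply h
  have key : ∀ (a b : Bool) (y : ℝ), 0 < sg a * y → 0 < sg b * y → a = b := by
    intro a b y ha hb
    cases a <;> cases b <;> simp [sg] at ha hb ⊢ <;> linarith
  exact Prod.ext (key _ _ _ h0 k0) (Prod.ext (key _ _ _ h1 k1) (key _ _ _ h2 k2))

end Pool.Agent.TH584.AS
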