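import Mathlib

set_option autoImplicit false

open scoped RealInnerProductSpace

namespace Pool.Agent.TH584.AS

theorem hlawka {E : Type*} [NormedAddCommGroup E] [InnerProductSpace ℝ E] (x y z : E) :
    ‖x + y‖ + ‖y + z‖ + ‖z + x‖ ≤ ‖x‖ + ‖y‖ + ‖z‖ + ‖x + y + z‖ := by
  have hp : ‖x + y‖ ≤ ‖x‖ + ‖y‖ := norm_add_le x y
  have hq : ‖y + z‖ ≤ ‖y‖ + ‖z‖ := norm_add_le y z
  have hr : ‖z + x‖ ≤ ‖z‖ + ‖x‖ := norm_add_le z x
  have hp' : ‖x + y‖ ≤ ‖x + y + z‖ + ‖z‖ := by
    have := norm_sub_le (x + y + z) z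
    simpa using this
  have hq' : ‖y + z‖ ≤ ‖x + y + z‖ + ‖x‖ := by
    have := norm_sub_le (x + y + z) x
    have e : x + y + z - x = y + z := by abel
    rwa [e] at this
  have hr' : ‖z + x‖ ≤ ‖x + y + z‖ + ‖y‖ := by
    have := norm_sub_le (x + y + z) y
    have e : x + y + z - y = z + x := by abel
    rwa [e] at this
  have hid : ‖x‖ ^ 2 + ‖y‖ ^ 2 + ‖z‖ ^ 2 + ‖x + y + z‖ ^ 2
      = ‖x + y‖ ^ 2 + ‖y + z‖ ^ 2 + ‖z + x‖ ^ 2 := by
    simp only [← real_inner_self_eq_norm_sq, inner_add_left, inner_add_right]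
    rw [real_inner_comm x y, real_inner_comm y z, real_inner_comm x z]
    ring
  have ha := norm_nonneg x
  have hb := norm_nonneg y
  have hc := norm_nonneg z
  have hd := norm_nonneg (x + y + z)
  generalize ‖x‖ = a at *
  generalize ‖y‖ = b at *
  generalize ‖z‖ = c at *
  generalize ‖x + y + z‖ = d at *
  generalize ‖x + y‖ = p at *
  generalize ‖y + z‖ = q at *
  generalize ‖z + x‖ = r at *
  rcases eq_or_lt_of_le (add_nonneg (add_nonneg (add_nonneg ha hb) hc) hd) with h0 | h0
  · nlinarith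
  · have h1 : 0 ≤ (a + b + c + d - (p + q + r)) * (a + b + c + d) := by
      have e : (a + b + c + d - (p + q + r)) * (a + b + c + d)
          = (a + b - p) * (c + d - p) + (b + c - q) * (a + d - q) + (c + a - r) * (b + d - r) := by
        linear_combination hid
      rw [e]
      have := mul_nonneg (sub_nonneg.2 hp) (by linarith : 0 ≤ c + d - p)
      have := mul_nonneg (sub_nonneg.2 hq) (by linarith : 0 ≤ a + d - q)
      have := mul_nonneg (sub_nonneg.2 hr) (by linarith : 0 ≤ b + d - r)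
      linarith
    have := nonneg_of_mul_nonneg_left h1 h0
    linarith

/-- the form in which it is used: the sum of the norms of the eight signed sums -/
theorem hlawka8 {E : Type*} [NormedAddCommGroup E] [InnerProductSpace ℝ E] (x y z : E) :
    2 * (‖x‖ + ‖y‖ + ‖z‖) ≤ ‖x + y + z‖ + ‖x + y - z‖ + ‖x - y + z‖ + ‖- x + y + z‖ := by
  have h := hlawka (x + y - z) (x - y + z) (-x + y + z)
  have e1 : x + y - z + (x - y + z) = (2 : ℝ) • x := by rw [two_smul]; abel
  have e2 : x - y + z + (-x + y + z) = (2 : ℝ) • z := by rw [two_smul]; abel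
  have e3 : -x + y + z + (x + y - z) = (2 : ℝ) • y := by rw [two_smul]; abel
  have e4 : (x + y - z) + (x - y + z) + (-x + y + z) = x + y + z := by abel
  rw [e4, e1, e2, e3, norm_smul, norm_smul, norm_smul, Real.norm_of_nonneg (by norm_num)] at h
  linarith

end Pool.Agent.TH584.AS
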