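import Pool.Agent.TH584.AS.Area

set_option autoImplicit false

open MeasureTheory Measure
open scoped RealInnerProductSpace ENNReal Pointwise

namespace Pool.Agent.TH584.AS

theorem null_level {E : Type*} [NormedAddCommGroup E] [NormedSpace ℝ E] [FiniteDimensional ℝ E]
    [MeasurableSpace E] [BorelSpace E] (μ : Measure E) [IsAddHaarMeasure μ]
    (f : E →ₗ[ℝ] ℝ) (hf : f ≠ 0) (c : ℝ) : μ {x | f x = c} = 0 := by
  rcases Set.eq_empty_or_nonempty {x | f x = c} with h | ⟨p, hp⟩
  · rw [h]; simp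
  · have hp' : f p = c := hp
    have : {x | f x = c} = (fun x => (-p) + x) ⁻¹' (LinearMap.ker f : Set E) := by
      ext x
      simp only [Set.mem_ofPred_eq, Set.mem_preimage, SetLike.mem_coe, LinearMap.mem_ker, map_add,
        map_neg, hp']
      constructor
      · intro h; rw [h]; ring
      · intro h; linarith
    rw [this, measure_preimage_add]
    exact addHaar_submodule μ _ (by
      intro h
      exact hf (LinearMap.ker_eq_top.mp h))

/-- closed triangle -/
def T (s : ℝ) : Set E2 := {p | 0 ≤ p 0 ∧ 0 ≤ p 1 ∧ p 0 + p 1 ≤ s}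
/-- open triangle -/
def To (s : ℝ) : Set E2 := {p | 0 < p 0 ∧ 0 < p 1 ∧ p 0 + p 1 < s}

noncomputable def tau : ℝ≥0∞ := (μH[2] : Measure E2) (T 1)

theorem isClosed_T (s : ℝ) : IsClosed (T s) := by
  have e : T s = {p : E2 | 0 ≤ p 0} ∩ ({p : E2 | 0 ≤ p 1} ∩ {p : E2 | p 0 + p 1 ≤ s}) := by
    ext p; exact Iff.rfl
  rw [e]
  apply IsClosed.inter (isClosed_le continuous_const (by fun_prop))
  exact IsClosed.inter (isClosed_le continuous_const (by fun_prop))
    (isClosed_le (by fun_prop) continuous_const)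

theorem isOpen_To (s : ℝ) : IsOpen (To s) := by
  have e : To s = {p : E2 | 0 < p 0} ∩ ({p : E2 | 0 < p 1} ∩ {p : E2 | p 0 + p 1 < s}) := by
    ext p; exact Iff.rfl
  rw [e]
  apply IsOpen.inter (isOpen_lt continuous_const (by fun_prop))
  exact IsOpen.inter (isOpen_lt continuous_const (by fun_prop))
    (isOpen_lt (by fun_prop) continuous_const)

theorem T_smul {s : ℝ} (hs : 0 < s) : T s = s • T 1 := by
  ext p
  rw [Set.mem_smul_set_iff_inv_smul_mem₀ hs.ne']
  simp only [T, Set.mem_ofPred_eq, PiLp.smul_apply, smul_eq_mul]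
  constructor
  · rintro ⟨h0, h1, h2⟩
    refine ⟨by positivity, by positivity, ?_⟩
    rw [← mul_add, inv_mul_le_iff₀ hs]; linarith
  · rintro ⟨h0, h1, h2⟩
    rw [← mul_add, inv_mul_le_iff₀ hs] at h2
    have hi : 0 < s⁻¹ := by positivity
    refine ⟨?_, ?_, by linarith⟩
    · exact (mul_nonneg_iff_of_pos_left hi).mp h0
    · exact (mul_nonneg_iff_of_pos_left hi).mp h1

theorem measure_T {s : ℝ} (hs : 0 < s) : (μH[2] : Measure E2) (T s) = ENNReal.ofReal (s ^ 2) * tau := by
  rw [T_smul hs, addHaar_smul, tau]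
  congr 2
  simp
  
theorem measure_To {s : ℝ} (hs : 0 < s) : (μH[2] : Measure E2) (To s) = ENNReal.ofReal (s ^ 2) * tau := by
  rw [← measure_T hs]
  apply measure_congr
  have hsub : To s ⊆ T s := fun p hp => ⟨hp.1.le, hp.2.1.le, hp.2.2.le⟩
  apply (LE.le.eventuallyLE hsub).antisymm ?_
  · have h0 : (μH[2] : Measure E2) {p : E2 | (EuclideanSpace.proj (0 : Fin 2) : E2 →L[ℝ] ℝ).toLinearMap p = 0} = 0 :=
      null_level _ _ (by
        intro h
        have := LinearMap.congr_fun h (EuclideanSpace.single 0 1)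
        simp at this) 0
    have h1 : (μH[2] : Measure E2) {p : E2 | (EuclideanSpace.proj (1 : Fin 2) : E2 →L[ℝ] ℝ).toLinearMap p = 0} = 0 :=
      null_level _ _ (by
        intro h
        have := LinearMap.congr_fun h (EuclideanSpace.single 1 1)
        simp at this) 0
    have h2 : (μH[2] : Measure E2) {p : E2 | ((EuclideanSpace.proj (0 : Fin 2) : E2 →L[ℝ] ℝ).toLinearMap + (EuclideanSpace.proj (1 : Fin 2) : E2 →L[ℝ] ℝ).toLinearMap) p = s} = 0 :=
      null_level _ _ (by
        intro h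
        have := LinearMap.congr_fun h (EuclideanSpace.single 1 1)
        simp at this) s
    have h0' := measure_eq_zero_iff_ae_notMem.mp h0
    have h1' := measure_eq_zero_iff_ae_notMem.mp h1
    have h2' := measure_eq_zero_iff_ae_notMem.mp h2
    filter_upwards [h0', h1', h2'] with p g0 g1 g2 hp
    have g0' : p 0 ≠ 0 := g0
    have g1' : p 1 ≠ 0 := g1
    have g2' : p 0 + p 1 ≠ s := g2
    exact ⟨lt_of_le_of_ne hp.1 (Ne.symm g0'), lt_of_le_of_ne hp.2.1 (Ne.symm g1'),
      lt_of_le_of_ne hp.2.2 g2'⟩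

theorem tau_ne_top : tau ≠ ∞ := by
  have hc : IsCompact (T 1) := by
    apply Metric.isCompact_of_isClosed_isBounded (isClosed_T 1)
    rw [isBounded_iff_forall_norm_le]
    refine ⟨2, fun p hp => ?_⟩
    rw [EuclideanSpace.norm_eq]
    apply Real.sqrt_le_iff.mpr
    refine ⟨by norm_num, ?_⟩
    simp only [Fin.sum_univ_two, Real.norm_eq_abs, sq_abs]
    obtain ⟨a, b, c⟩ := hp
    nlinarith
  exact hc.measure_lt_top.ne

theorem tau_pos : 0 < tau := by
  have h := (isOpen_To 1).measure_pos (μH[2] : Measure E2) ⟨!₂[1/4, 1/4], by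
    simp [To]; norm_num⟩
  rw [measure_To one_pos] at h
  simpa using h

/-- hexagon of the truncated face -/
def Hx : Set E2 := {p | 0 ≤ p 0 ∧ 0 ≤ p 1 ∧ p 0 ≤ 8 ∧ p 1 ≤ 8 ∧ 5 ≤ p 0 + p 1 ∧ p 0 + p 1 ≤ 13}

theorem measure_Hx : (μH[2] : Measure E2) Hx ≤ 94 * tau := by
  have key : (μH[2] : Measure E2) Hx + (75 * tau) ≤ 169 * tau := by
    have hT : (μH[2] : Measure E2) (T 13) = 169 * tau := by
      rw [measure_T (by norm_num)]
      congr 1
      rw [show ((13 : ℝ) ^ 2) = ((169 : ℕ) : ℝ) by norm_num, ENNReal.ofReal_natCast]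
      rfl
    have h5 : (μH[2] : Measure E2) (To 5) = 25 * tau := by
      rw [measure_To (by norm_num)]
      congr 1
      rw [show ((5 : ℝ) ^ 2) = ((25 : ℕ) : ℝ) by norm_num, ENNReal.ofReal_natCast]
      rfl
    have ha : (μH[2] : Measure E2) ((fun p => (!₂[-8, 0] : E2) + p) ⁻¹' (To 5)) = 25 * tau := by
      rw [measure_preimage_add, h5]
    have hb : (μH[2] : Measure E2) ((fun p => (!₂[0, -8] : E2) + p) ⁻¹' (To 5)) = 25 * tau := by
      rw [measure_preimage_add, h5]
    have mo : MeasurableSet (To 5) := (isOpen_To 5).measurableSet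
    have ma : MeasurableSet ((fun p => (!₂[-8, 0] : E2) + p) ⁻¹' (To 5)) :=
      mo.preimage (by fun_prop)
    have mb : MeasurableSet ((fun p => (!₂[0, -8] : E2) + p) ⁻¹' (To 5)) :=
      mo.preimage (by fun_prop)
    have d1 : Disjoint Hx (To 5) := by
      rw [Set.disjoint_left]
      rintro p ⟨_, _, _, _, h, _⟩ ⟨_, _, h'⟩
      linarith
    have d2 : Disjoint (Hx ∪ To 5) ((fun p => (!₂[-8, 0] : E2) + p) ⁻¹' (To 5)) := by
      rw [Set.disjoint_left]
      rintro p hp ⟨g0, g1, g2⟩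
      simp at g0 g1 g2
      rcases hp with ⟨_, _, h, _, _, _⟩ | ⟨_, h1, h⟩
      · linarith
      · linarith
    have d3 : Disjoint (Hx ∪ To 5 ∪ ((fun p => (!₂[-8, 0] : E2) + p) ⁻¹' (To 5)))
        ((fun p => (!₂[0, -8] : E2) + p) ⁻¹' (To 5)) := by
      rw [Set.disjoint_left]
      rintro p hp ⟨g0, g1, g2⟩
      simp at g0 g1 g2
      rcases hp with (⟨_, _, _, h, _, _⟩ | ⟨_, h1, h⟩) | ⟨k0, k1, k2⟩
      · linarith
      · linarith
      · simp at k0 k1 k2
        linarith
    calc (μH[2] : Measure E2) Hx + (75 * tau)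
        = (μH[2] : Measure E2) Hx + 25 * tau + 25 * tau + 25 * tau := by ring
      _ = (μH[2] : Measure E2) (Hx ∪ To 5 ∪ ((fun p => (!₂[-8, 0] : E2) + p) ⁻¹' (To 5)) ∪
            ((fun p => (!₂[0, -8] : E2) + p) ⁻¹' (To 5))) := by
          rw [measure_union d3 mb, measure_union d2 ma, measure_union d1 mo, ha, hb, h5]
      _ ≤ (μH[2] : Measure E2) (T 13) := by
          apply measure_mono
          rintro p (((⟨a, b, c, d, e, f⟩ | ⟨a, b, c⟩) | ⟨a, b, c⟩) | ⟨a, b, c⟩)
          · exact ⟨a, b, f⟩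
          · exact ⟨a.le, b.le, by linarith⟩
          · simp at a b c
            exact ⟨by linarith, by linarith, by linarith⟩
          · simp at a b c
            exact ⟨by linarith, by linarith, by linarith⟩
      _ = 169 * tau := hT
  have e : (169 : ℝ≥0∞) * tau = 94 * tau + 75 * tau := by
    rw [← add_mul]; norm_num
  rw [e] at key
  exact (ENNReal.add_le_add_iff_right (ENNReal.mul_ne_top (by norm_num) tau_ne_top)).mp key

/-- the square face -/
def Sq : Set E2 := {p | |p 0| + |p 1| ≤ 5}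

noncomputable def flip (a b : ℝ) (ha : |a| = 1) (hb : |b| = 1) : E2 ≃ₗᵢ[ℝ] E2 where
  toFun p := !₂[a * p 0, b * p 1]
  invFun p := !₂[a * p 0, b * p 1]
  map_add' p q := by ext i; fin_cases i <;> simp [mul_add]
  map_smul' c p := by ext i; fin_cases i <;> simp <;> ring
  left_inv p := by
    have h1 : a * a = 1 := by rw [← abs_mul_abs_self, ha]; norm_num
    have h2 : b * b = 1 := by rw [← abs_mul_abs_self, hb]; norm_num
    ext i; fin_cases i
    · simp [← mul_assoc, h1]
    · simp [← mul_assoc, h2]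
  right_inv p := by
    have h1 : a * a = 1 := by rw [← abs_mul_abs_self, ha]; norm_num
    have h2 : b * b = 1 := by rw [← abs_mul_abs_self, hb]; norm_num
    ext i; fin_cases i
    · simp [← mul_assoc, h1]
    · simp [← mul_assoc, h2]
  norm_map' p := by
    have h1 : a ^ 2 = 1 := by rw [← sq_abs, ha]; norm_num
    have h2 : b ^ 2 = 1 := by rw [← sq_abs, hb]; norm_num
    simp [EuclideanSpace.norm_eq, Fin.sum_univ_two, mul_pow, h1, h2]

theorem measure_Sq : (μH[2] : Measure E2) Sq ≤ 100 * tau := by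
  have h5 : (μH[2] : Measure E2) (T 5) = 25 * tau := by
    rw [measure_T (by norm_num)]
    congr 1
    rw [show ((5 : ℝ) ^ 2) = ((25 : ℕ) : ℝ) by norm_num, ENNReal.ofReal_natCast]
    rfl
  have hf : ∀ (a b : ℝ) (ha : |a| = 1) (hb : |b| = 1),
      (μH[2] : Measure E2) (flip a b ha hb '' T 5) = 25 * tau := by
    intro a b ha hb
    rw [(flip a b ha hb).isometry.hausdorffMeasure_image (Or.inl (by norm_num)), h5]
  have hsub : Sq ⊆ flip 1 1 (by simp) (by simp) '' T 5 ∪ flip 1 (-1) (by simp) (by simp) '' T 5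
      ∪ flip (-1) 1 (by simp) (by simp) '' T 5 ∪ flip (-1) (-1) (by simp) (by simp) '' T 5 := by
    intro p hp
    have hp' : |p 0| + |p 1| ≤ 5 := hp
    have hmem : ∀ (a b : ℝ) (ha : |a| = 1) (hb : |b| = 1), a * p 0 = |p 0| → b * p 1 = |p 1| →
        p ∈ flip a b ha hb '' T 5 := by
      intro a b ha hb h0 h1
      refine ⟨flip a b ha hb p, ?_, (flip a b ha hb).left_inv p⟩
      show 0 ≤ _ ∧ 0 ≤ _ ∧ _
      have e0 : (flip a b ha hb p) 0 = a * p 0 := rfl
      have e1 : (flip a b ha hb p) 1 = b * p 1 := rfl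
      rw [e0, e1, h0, h1]
      exact ⟨abs_nonneg _, abs_nonneg _, hp'⟩
    rcases le_total 0 (p 0) with h0 | h0 <;> rcases le_total 0 (p 1) with h1 | h1
    · exact Or.inl (Or.inl (Or.inl (hmem 1 1 _ _ (by rw [abs_of_nonneg h0]; ring) (by rw [abs_of_nonneg h1]; ring))))
    · exact Or.inl (Or.inl (Or.inr (hmem 1 (-1) _ _ (by rw [abs_of_nonneg h0]; ring) (by rw [abs_of_nonpos h1]; ring))))
    · exact Or.inl (Or.inr (hmem (-1) 1 _ _ (by rw [abs_of_nonpos h0]; ring) (by rw [abs_of_nonneg h1]; ring)))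
    · exact Or.inr (hmem (-1) (-1) _ _ (by rw [abs_of_nonpos h0]; ring) (by rw [abs_of_nonpos h1]; ring))
  calc (μH[2] : Measure E2) Sq ≤ _ := measure_mono hsub
    _ ≤ 25 * tau + 25 * tau + 25 * tau + 25 * tau := by
        refine (measure_union_le _ _).trans ?_
        refine add_le_add ((measure_union_le _ _).trans ?_) (hf _ _ _ _).le
        refine add_le_add ((measure_union_le _ _).trans ?_) (hf _ _ _ _).le
        exact add_le_add (hf _ _ _ _).le (hf _ _ _ _).le
    _ = 100 * tau := by ring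

end Pool.Agent.TH584.AS
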