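import Pool.Agent.TH584.AS.Planar
import Pool.Agent.TH584.AS.Hlawka

set_option autoImplicit false

open MeasureTheory Measure
open scoped RealInnerProductSpace ENNReal Pointwise

namespace Pool.Agent.TH584.AS

noncomputable def fm (c b1 b2 : E3) (p : E2) : E3 := c + (p 0 • b1 + p 1 • b2)

theorem face_measure (A : E3 ≃ᵃ[ℝ] E3) (c b1 b2 : E3) (h : LinearIndependent ℝ ![b1, b2])
    (S : Set E2) :
    (μH[2] : Measure E3) (A '' (fm c b1 b2 '' S))
      = ENNReal.ofReal ‖cr (A.linear b1) (A.linear b2)‖ * (μH[2] : Measure E2) S := by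
  have himg : A '' (fm c b1 b2 '' S)
      = (fun y => A c + y) '' (lin2 (A.linear b1) (A.linear b2) '' S) := by
    rw [Set.image_image, Set.image_image]
    refine Set.image_congr fun p _ => ?_
    have := A.map_vadd c (p 0 • b1 + p 1 • b2)
    simp only [vadd_eq_add] at this
    rw [fm, add_comm c, this, lin2_apply, map_add, map_smul, map_smul, add_comm (A c)]
  rw [himg, (isometry_add_left (A c)).hausdorffMeasure_image (Or.inl (by norm_num))]
  apply hausdorff_lin2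
  rw [LinearIndependent.pair_iff] at h ⊢
  intro s t hst
  apply h
  apply A.linear.injective
  rw [map_add, map_smul, map_smul, hst, map_zero]

noncomputable def sg (b : Bool) : ℝ := if b then 1 else -1

theorem sg_mul_self (b : Bool) : sg b * sg b = 1 := by cases b <;> simp [sg]
theorem sg_ne (b : Bool) : sg b ≠ 0 := by cases b <;> simp [sg]

theorem exists_sg (x : ℝ) : ∃ b, sg b * x = |x| := by
  rcases le_total 0 x with h | h
  · exact ⟨true, by simp [sg, abs_of_nonneg h]⟩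
  · exact ⟨false, by simp [sg, abs_of_nonpos h]⟩

noncomputable def e (i : Fin 3) : E3 := EuclideanSpace.single i 1

theorem fm_tri (s : ℝ) (σ : Bool × Bool × Bool) (p : E2) :
    fm (!₂[sg σ.1 * s, 0, 0]) (!₂[- sg σ.1, sg σ.2.1, 0]) (!₂[- sg σ.1, 0, sg σ.2.2]) p
      = !₂[sg σ.1 * (s - p 0 - p 1), sg σ.2.1 * p 0, sg σ.2.2 * p 1] := by
  ext i
  fin_cases i <;> simp [fm] <;> ring

theorem indep_tri (σ : Bool × Bool × Bool) :
    LinearIndependent ℝ ![(!₂[- sg σ.1, sg σ.2.1, 0] : E3), (!₂[- sg σ.1, 0, sg σ.2.2] : E3)] := by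
  rw [LinearIndependent.pair_iff]
  intro s t h
  have h1 := congrArg (fun x : E3 => x 1) h
  have h2 := congrArg (fun x : E3 => x 2) h
  simp [sg_ne] at h1 h2
  exact ⟨h1, h2⟩

/-- area factor of the triangular faces -/
noncomputable def G (A : E3 ≃ᵃ[ℝ] E3) (σ : Bool × Bool × Bool) : ℝ :=
  ‖sg σ.1 • cr (A.linear (e 1)) (A.linear (e 2)) + sg σ.2.1 • cr (A.linear (e 2)) (A.linear (e 0))
    + sg σ.2.2 • cr (A.linear (e 0)) (A.linear (e 1))‖

theorem vec_eq (x y z : ℝ) : (!₂[x, y, z] : E3) = x • e 0 + y • e 1 + z • e 2 := by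
  ext i; fin_cases i <;> simp [e]

theorem cr_tri (A : E3 ≃ᵃ[ℝ] E3) (σ : Bool × Bool × Bool) :
    ‖cr (A.linear (!₂[- sg σ.1, sg σ.2.1, 0])) (A.linear (!₂[- sg σ.1, 0, sg σ.2.2]))‖
      = G A σ := by
  have key : cr (A.linear (!₂[- sg σ.1, sg σ.2.1, 0])) (A.linear (!₂[- sg σ.1, 0, sg σ.2.2]))
      = (sg σ.1 * sg σ.2.1 * sg σ.2.2) •
        (sg σ.1 • cr (A.linear (e 1)) (A.linear (e 2))
        + sg σ.2.1 • cr (A.linear (e 2)) (A.linear (e 0))
        + sg σ.2.2 • cr (A.linear (e 0)) (A.linear (e 1))) := by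
    rw [vec_eq, vec_eq]
    simp only [map_add, map_smul]
    have h0 := sg_mul_self σ.1
    have h1 := sg_mul_self σ.2.1
    have h2 := sg_mul_self σ.2.2
    generalize sg σ.1 = a at *
    generalize sg σ.2.1 = b at *
    generalize sg σ.2.2 = c at *
    generalize A.linear (e 0) = x at *
    generalize A.linear (e 1) = y at *
    generalize A.linear (e 2) = z at *
    ext i
    fin_cases i
    · simp [cr]
      linear_combination (-(b * c * (y 1 * z 2 - y 2 * z 1))) * h0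
        - (a * c * (z 1 * x 2 - z 2 * x 1)) * h1 - (a * b * (x 1 * y 2 - x 2 * y 1)) * h2
    · simp [cr]
      linear_combination (-(b * c * (y 2 * z 0 - y 0 * z 2))) * h0
        - (a * c * (z 2 * x 0 - z 0 * x 2)) * h1 - (a * b * (x 2 * y 0 - x 0 * y 2)) * h2
    · simp [cr]
      linear_combination (-(b * c * (y 0 * z 1 - y 1 * z 0))) * h0
        - (a * c * (z 0 * x 1 - z 1 * x 0)) * h1 - (a * b * (x 0 * y 1 - x 1 * y 0)) * h2
  rw [key, norm_smul, G]
  have : ‖sg σ.1 * sg σ.2.1 * sg σ.2.2‖ = 1 := by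
    rcases σ with ⟨a, b, c⟩
    cases a <;> cases b <;> cases c <;> simp [sg]
  rw [this, one_mul]

theorem sum_G (A : E3 ≃ᵃ[ℝ] E3) :
    4 * (‖cr (A.linear (e 1)) (A.linear (e 2))‖ + ‖cr (A.linear (e 2)) (A.linear (e 0))‖
      + ‖cr (A.linear (e 0)) (A.linear (e 1))‖) ≤ ∑ σ : Bool × Bool × Bool, G A σ := by
  simp only [Fintype.sum_prod_type, Fintype.sum_bool, G, sg]
  generalize cr (A.linear (e 1)) (A.linear (e 2)) = x
  generalize cr (A.linear (e 2)) (A.linear (e 0)) = y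
  generalize cr (A.linear (e 0)) (A.linear (e 1)) = z
  have h := hlawka8 x y z
  have n1 : ‖(1 : ℝ) • x + (1 : ℝ) • y + (1 : ℝ) • z‖ = ‖x + y + z‖ := by simp
  have n2 : ‖(1 : ℝ) • x + (1 : ℝ) • y + (-1 : ℝ) • z‖ = ‖x + y - z‖ := by
    congr 1; simp [sub_eq_add_neg]
  have n3 : ‖(1 : ℝ) • x + (-1 : ℝ) • y + (1 : ℝ) • z‖ = ‖x - y + z‖ := by
    congr 1; simp [sub_eq_add_neg]
  have n4 : ‖(1 : ℝ) • x + (-1 : ℝ) • y + (-1 : ℝ) • z‖ = ‖-x + y + z‖ := by
    rw [← norm_neg]; congr 1; simp; abel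
  have n5 : ‖(-1 : ℝ) • x + (1 : ℝ) • y + (1 : ℝ) • z‖ = ‖-x + y + z‖ := by
    congr 1; simp
  have n6 : ‖(-1 : ℝ) • x + (1 : ℝ) • y + (-1 : ℝ) • z‖ = ‖x - y + z‖ := by
    rw [← norm_neg]; congr 1; simp; abel
  have n7 : ‖(-1 : ℝ) • x + (-1 : ℝ) • y + (1 : ℝ) • z‖ = ‖x + y - z‖ := by
    rw [← norm_neg]; congr 1; simp; abel
  have n8 : ‖(-1 : ℝ) • x + (-1 : ℝ) • y + (-1 : ℝ) • z‖ = ‖x + y + z‖ := by
    rw [← norm_neg]; congr 1; simp; abel
  simp only [if_true, Bool.false_eq_true, if_false]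
  rw [n1, n2, n3, n4, n5, n6, n7, n8]
  linarith

end Pool.Agent.TH584.AS
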